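import Mathlib

/-!
# Stationary generalized Bratteli diagrams: definitions
-/

set_option autoImplicit false

open MeasureTheory Set Filter Topology

namespace Pool.Agent.Q186.Brat

/-- A stationary generalized Bratteli diagram: all levels are identified with `V`, and all edge sets
with `E`; an edge `e` of level `n` goes from the vertex `src e` of level `n` to the vertex `tgt e` of
level `n + 1`. -/
structure Diagram (V : Type) where
  /-- the edges between two consecutive levels -/
  E : Type
  /-- the source of an edge -/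
  src : E → V
  /-- the range of an edge -/
  tgt : E → V
  out_finite : ∀ v, {e | src e = v}.Finite
  in_finite : ∀ v, {e | tgt e = v}.Finite
  out_nonempty : ∀ v, ∃ e, src e = v
  in_nonempty : ∀ v, ∃ e, tgt e = v

variable {V : Type} (D : Diagram V)

/-- The incidence matrix: the number of edges from `w` to `v`. -/
noncomputable def Diagram.F (v w : V) : ℕ := {e : D.E | D.src e = w ∧ D.tgt e = v}.ncard

open Classical in
/-- The powers of the incidence matrix. -/
noncomputable def Diagram.pow : ℕ → V → V → ℕ
  | 0, v, w => if v = w then 1 else 0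
  | n + 1, v, w => ∑ᶠ u, D.F v u * Diagram.pow n u w

/-- Some power has a positive entry at each place. -/
def Diagram.Irreducible : Prop := ∀ v w, ∃ n, 0 < D.pow n v w

/-- `gcd {n : (F ^ n) v v > 0} = 1` for each `v`. -/
def Diagram.Aperiodic : Prop := ∀ v, ∀ d : ℕ, (∀ n, 0 < D.pow n v v → d ∣ n) → d = 1

/-- The path space: a path has an edge `edge i` in each edge set `E_i`, and `r(x_i) = s(x_{i+1})`. -/
@[ext] structure Diagram.Path where
  /-- the edges of the path -/
  edge : ℕ → D.E
  comp : ∀ i, D.tgt (edge i) = D.src (edge (i + 1))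

/-- The cylinder set of all paths which begin with the first `n` edges of `x`. For `n = 0` it is the
set of all paths with the same first vertex as `x`. -/
def Diagram.cyl (n : ℕ) (x : D.Path) : Set D.Path :=
  {y | (∀ i < n, y.edge i = x.edge i) ∧ D.src (y.edge n) = D.src (x.edge n)}

/-- The Borel `σ`-algebra of the path space is generated by the cylinder sets. -/
instance Diagram.instMS : MeasurableSpace D.Path :=
  MeasurableSpace.generateFrom {C | ∃ n x, C = D.cyl n x}

/-- Tail-invariant measures: nonzero, and cylinder sets of finite paths of the same length with the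
same final vertex have the same measure. -/
def Diagram.TailInvariant (μ : Measure D.Path) : Prop :=
  μ ≠ 0 ∧ ∀ (n : ℕ) (x y : D.Path), D.src (x.edge n) = D.src (y.edge n) →
    μ (D.cyl n x) = μ (D.cyl n y)

variable {D}

theorem measurableSet_cyl (n : ℕ) (x : D.Path) : MeasurableSet (D.cyl n x) :=
  MeasurableSpace.measurableSet_generateFrom ⟨n, x, rfl⟩

theorem mem_cyl_self (n : ℕ) (x : D.Path) : x ∈ D.cyl n x := ⟨fun _ _ => rfl, rfl⟩

theorem exists_from (v : V) : ∃ x : D.Path, D.src (x.edge 0) = v := by
  choose f hf using D.out_nonempty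
  let g : ℕ → D.E := fun n => Nat.rec (f v) (fun _ e => f (D.tgt e)) n
  exact ⟨⟨g, fun i => (hf (D.tgt (g i))).symm⟩, hf v⟩

/-- the path which follows `x` up to level `n` and `y` from level `n` on -/
def glue (n : ℕ) (x y : D.Path) (h : D.src (x.edge n) = D.src (y.edge n)) : D.Path :=
  ⟨fun i => if i < n then x.edge i else y.edge i, by
    intro i
    rcases lt_trichotomy (i + 1) n with h1 | h1 | h1
    · rw [if_pos (by omega), if_pos h1]; exact x.comp i
    · rw [if_pos (by omega), if_neg (by omega)]
      subst h1
      rw [x.comp i, h]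
    · have h2 : ¬ i < n := by omega
      have h3 : ¬ i + 1 < n := by omega
      rw [if_neg h2, if_neg h3]; exact y.comp i⟩

theorem glue_lt {n : ℕ} {x y : D.Path} (h : D.src (x.edge n) = D.src (y.edge n)) {i : ℕ} (hi : i < n) :
    (glue n x y h).edge i = x.edge i := if_pos hi

theorem glue_ge {n : ℕ} {x y : D.Path} (h : D.src (x.edge n) = D.src (y.edge n)) {i : ℕ} (hi : n ≤ i) :
    (glue n x y h).edge i = y.edge i := if_neg (by omega)

/-- the path `y` moved up by `n` levels, preceded by arbitrary edges -/
theorem exists_shift (n : ℕ) (y : D.Path) : ∃ x : D.Path, ∀ i, x.edge (n + i) = y.edge i := by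
  induction n with
  | zero => exact ⟨y, fun i => by rw [zero_add]⟩
  | succ n ih =>
    obtain ⟨x, hx⟩ := ih
    obtain ⟨e, he⟩ := D.in_nonempty (D.src (x.edge 0))
    refine ⟨⟨fun i => Nat.casesOn i e x.edge, ?_⟩, ?_⟩
    · intro i
      cases i with
      | zero => exact he
      | succ i => exact x.comp i
    · intro i
      rw [← hx i]
      have : n + 1 + i = (n + i) + 1 := by omega
      rw [this]

/-- some path is at `v` at level `n` -/
theorem exists_at (n : ℕ) (v : V) : ∃ x : D.Path, D.src (x.edge n) = v := by
  obtain ⟨y, hy⟩ := exists_from (D := D) v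
  obtain ⟨x, hx⟩ := exists_shift n y
  refine ⟨x, ?_⟩
  rw [← hy, ← hx 0, add_zero]

/-- The entries of the incidence matrix. -/
theorem F_pos_iff {v w : V} : 0 < D.F v w ↔ ∃ e, D.src e = w ∧ D.tgt e = v := by
  unfold Diagram.F
  rw [Set.ncard_pos ((D.out_finite w).subset fun e he => he.1)]
  rfl

theorem support_finite (v : V) : {u | D.F v u ≠ 0}.Finite := by
  refine ((D.in_finite v).image D.src).subset ?_
  intro u hu
  obtain ⟨e, h1, h2⟩ := F_pos_iff.mp (Nat.pos_of_ne_zero hu)
  exact ⟨e, h2, h1⟩

theorem pow_zero_self (v : V) : D.pow 0 v v = 1 := by simp [Diagram.pow]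

theorem le_pow_succ (n : ℕ) (v u w : V) : D.F v u * D.pow n u w ≤ D.pow (n + 1) v w := by
  have hfin : (Function.support fun u => D.F v u * D.pow n u w).Finite := by
    refine (support_finite (D := D) v).subset ?_
    intro u hu
    exact left_ne_zero_of_mul hu
  change _ ≤ ∑ᶠ u, D.F v u * D.pow n u w
  exact single_le_finsum u hfin fun _ => Nat.zero_le _

theorem pow_succ_eq (n : ℕ) (v w : V) :
    D.pow (n + 1) v w = ∑ u ∈ (support_finite (D := D) v).toFinset, D.F v u * D.pow n u w := by
  change (∑ᶠ u, D.F v u * D.pow n u w) = _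
  rw [finsum_eq_sum_of_support_subset]
  intro u hu
  simp only [Set.Finite.coe_toFinset]
  exact left_ne_zero_of_mul hu

theorem mul_le_pow_add (m n : ℕ) (v u w : V) :
    D.pow m v u * D.pow n u w ≤ D.pow (m + n) v w := by
  induction m generalizing v with
  | zero =>
    rw [zero_add]
    by_cases h : v = u
    · subst h; rw [pow_zero_self, one_mul]
    · simp [Diagram.pow, h]
  | succ m ih =>
    have e : m + 1 + n = (m + n) + 1 := by omega
    rw [e, pow_succ_eq m v u, pow_succ_eq (m + n) v w, Finset.sum_mul]
    apply Finset.sum_le_sum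
    intro a _
    rw [mul_assoc]
    exact Nat.mul_le_mul_left _ (ih a)

theorem pow_loop (v : V) (n : ℕ) : D.F v v ^ n ≤ D.pow n v v := by
  induction n with
  | zero => rw [pow_zero_self, _root_.pow_zero]
  | succ n ih =>
    calc D.F v v ^ (n + 1) = D.F v v * D.F v v ^ n := by rw [pow_succ, mul_comm]
      _ ≤ D.F v v * D.pow n v v := Nat.mul_le_mul_left _ ih
      _ ≤ _ := le_pow_succ n v v v

theorem pow_pos_step {n : ℕ} {w : V} {e : D.E} (h : 0 < D.pow n (D.src e) w) :
    0 < D.pow (n + 1) (D.tgt e) w :=
  lt_of_lt_of_le (Nat.mul_pos (F_pos_iff.mpr ⟨e, rfl, rfl⟩) h) (le_pow_succ n _ _ w)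

end Pool.Agent.Q186.Brat
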