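import Mathlib
import Pool.Agent.Q186.Brat.Defs

/-!
# A diagram without finite Perron eigenvalue with a finite tail-invariant measure
-/

set_option autoImplicit false

open MeasureTheory Set Filter Topology
open scoped ENNReal

namespace Pool.Agent.Q186.Brat.One

/-- the vertices -/
inductive Vx : Type
  | r (k : ℕ) : Vx
  | c (k : ℕ) : Vx
  | d (k : ℕ) : Vx

/-- the edges: two edges `r k → r (k + 1)`, one edge `r k → c k`, `k + 1` loops at `c k`, and edges
`c k → d k`, `d (k + 1) → d k`, `d 0 → r 0` -/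
inductive Ed : Type
  | ray (k : ℕ) (b : Bool) : Ed
  | rc (k : ℕ) : Ed
  | loop (k : ℕ) (j : Fin (k + 1)) : Ed
  | cd (k : ℕ) : Ed
  | dd (k : ℕ) : Ed
  | dr : Ed

open Vx Ed

/-- the source -/
def src : Ed → Vx
  | ray k _ => r k
  | rc k => r k
  | loop k _ => c k
  | cd k => c k
  | dd k => d (k + 1)
  | dr => d 0

/-- the range -/
def tgt : Ed → Vx
  | ray k _ => r (k + 1)
  | rc k => c k
  | loop k _ => c k
  | cd k => d k
  | dd k => d k
  | dr => r 0

/-- the diagram -/
def DD : Diagram Vx where
  E := Ed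
  src := src
  tgt := tgt
  out_finite v := by
    cases v with
    | r k =>
      refine (((Set.finite_range (ray k)).insert (rc k))).subset ?_
      rintro e he
      cases e <;> simp [src] at he <;> subst he <;> simp
    | c k =>
      refine (((Set.finite_range (loop k)).insert (cd k))).subset ?_
      rintro e he
      cases e <;> simp [src] at he <;> subst he <;> simp
    | d k =>
      refine (((Set.finite_singleton (dd (k - 1))).insert dr)).subset ?_
      rintro e he
      cases e <;> simp [src] at he <;> subst he <;> simp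
  in_finite v := by
    cases v with
    | r k =>
      refine (((Set.finite_range (ray (k - 1))).insert dr)).subset ?_
      rintro e he
      cases e <;> simp [tgt] at he <;> subst he <;> simp
    | c k =>
      refine (((Set.finite_range (loop k)).insert (rc k))).subset ?_
      rintro e he
      cases e <;> simp [tgt] at he <;> subst he <;> simp
    | d k =>
      refine (((Set.finite_singleton (dd k)).insert (cd k))).subset ?_
      rintro e he
      cases e <;> simp [tgt] at he <;> subst he <;> simp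
  out_nonempty v := by
    cases v with
    | r k => exact ⟨rc k, rfl⟩
    | c k => exact ⟨cd k, rfl⟩
    | d k =>
      cases k with
      | zero => exact ⟨dr, rfl⟩
      | succ k => exact ⟨dd k, rfl⟩
  in_nonempty v := by
    cases v with
    | r k =>
      cases k with
      | zero => exact ⟨dr, rfl⟩
      | succ k => exact ⟨ray k true, rfl⟩
    | c k => exact ⟨rc k, rfl⟩
    | d k => exact ⟨cd k, rfl⟩

instance : Countable Vx := by
  have : Function.Injective (fun v : Vx => match v with
    | r k => ((0 : ℕ), k)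
    | c k => (1, k)
    | d k => (2, k)) := by
    intro a b h
    cases a <;> cases b <;> simp_all
  exact this.countable

instance : Infinite Vx :=
  Infinite.of_injective (fun k : ℕ => r k) fun a b h => by simpa using h

/-! ### The powers of the incidence matrix -/

theorem step (e : Ed) {n : ℕ} {w : Vx} (h : 0 < DD.pow n (src e) w) : 0 < DD.pow (n + 1) (tgt e) w :=
  pow_pos_step (D := DD) (e := e) h

theorem one_pos' (e : Ed) : 0 < DD.pow 1 (tgt e) (src e) := by
  have := step e (n := 0) (w := src e) (by rw [pow_zero_self]; norm_num)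
  simpa using this

theorem back (e : Ed) {n : ℕ} {v : Vx} (h : 0 < DD.pow n v (tgt e)) : 0 < DD.pow (n + 1) v (src e) :=
  lt_of_lt_of_le (Nat.mul_pos h (one_pos' e)) (mul_le_pow_add n 1 v (tgt e) (src e))

theorem from_r0 (v : Vx) : ∃ n, 0 < DD.pow n v (r 0) := by
  have hr : ∀ k, ∃ n, 0 < DD.pow n (r k) (r 0) := by
    intro k
    induction k with
    | zero => exact ⟨0, by rw [pow_zero_self]; norm_num⟩
    | succ k ih =>
      obtain ⟨n, hn⟩ := ih
      exact ⟨n + 1, step (ray k true) hn⟩
  cases v with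
  | r k => exact hr k
  | c k =>
    obtain ⟨n, hn⟩ := hr k
    exact ⟨n + 1, step (rc k) hn⟩
  | d k =>
    obtain ⟨n, hn⟩ := hr k
    exact ⟨n + 1 + 1, step (cd k) (step (rc k) hn)⟩

theorem to_r0 (w : Vx) : ∃ n, 0 < DD.pow n (r 0) w := by
  have hd : ∀ k, ∃ n, 0 < DD.pow n (r 0) (d k) := by
    intro k
    induction k with
    | zero => exact ⟨1, one_pos' dr⟩
    | succ k ih =>
      obtain ⟨n, hn⟩ := ih
      exact ⟨n + 1, back (dd k) hn⟩
  cases w with
  | r k =>
    obtain ⟨n, hn⟩ := hd k
    exact ⟨n + 1 + 1, back (rc k) (back (cd k) hn)⟩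
  | c k =>
    obtain ⟨n, hn⟩ := hd k
    exact ⟨n + 1, back (cd k) hn⟩
  | d k => exact hd k

theorem irreducible : DD.Irreducible := by
  intro v w
  obtain ⟨m, hm⟩ := from_r0 v
  obtain ⟨n, hn⟩ := to_r0 w
  exact ⟨m + n, lt_of_lt_of_le (Nat.mul_pos hm hn) (mul_le_pow_add m n v (r 0) w)⟩

theorem F_c (k : ℕ) : k + 1 ≤ DD.F (c k) (c k) := by
  unfold Diagram.F
  have h1 : (Set.range (loop k)) ⊆ {e : Ed | src e = c k ∧ tgt e = c k} := by
    rintro _ ⟨j, rfl⟩
    exact ⟨rfl, rfl⟩
  have h2 : (Set.range (loop k)).ncard = k + 1 := by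
    rw [← Set.image_univ, Set.ncard_image_of_injective _ (by intro a b h; simpa using h)]
    simp [Set.ncard_univ]
  have h3 : {e : Ed | src e = c k ∧ tgt e = c k}.Finite :=
    (DD.out_finite (c k)).subset fun e he => he.1
  change k + 1 ≤ {e : Ed | src e = c k ∧ tgt e = c k}.ncard
  rw [← h2]
  exact Set.ncard_le_ncard h1 h3

theorem loops (k m : ℕ) : (k + 1) ^ m ≤ DD.pow m (c k) (c k) :=
  (Nat.pow_le_pow_left (F_c k) m).trans (pow_loop (c k) m)

theorem aperiodic : DD.Aperiodic := by
  intro v q hq
  obtain ⟨a, ha⟩ := irreducible v (c 0)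
  obtain ⟨b, hb⟩ := irreducible (c 0) v
  have h1 := hq (a + b) (lt_of_lt_of_le (Nat.mul_pos ha hb) (mul_le_pow_add a b v (c 0) v))
  have h2 : 0 < DD.pow (1 + b) (c 0) v := by
    have h3 : 0 < DD.pow 1 (c 0) (c 0) := lt_of_lt_of_le (by norm_num) (loops 0 1)
    exact lt_of_lt_of_le (Nat.mul_pos h3 hb) (mul_le_pow_add 1 b _ _ _)
  have h3 := hq (a + (1 + b)) (lt_of_lt_of_le (Nat.mul_pos ha h2) (mul_le_pow_add a _ v (c 0) v))
  have h4 : a + (1 + b) = (a + b) + 1 := by ring
  rw [h4] at h3
  exact Nat.dvd_one.mp ((Nat.dvd_add_right h1).mp h3)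

theorem perron (v w : Vx) :
    Tendsto (fun n : ℕ => ((DD.pow n v w : ℕ) : ℝ) ^ (1 / (n : ℝ))) atTop atTop := by
  rw [Filter.tendsto_atTop]
  intro C
  obtain ⟨K, hK⟩ := exists_nat_gt (max C 1)
  have hK1 : (1 : ℝ) < K := lt_of_le_of_lt (le_max_right _ _) hK
  have hKC : C < K := lt_of_le_of_lt (le_max_left _ _) hK
  have hK2 : 1 < K := by exact_mod_cast hK1
  set k := K ^ 2 - 1 with hk
  have hk1 : k + 1 = K ^ 2 := by
    have : 1 ≤ K ^ 2 := Nat.one_le_pow _ _ (by omega)
    omega
  obtain ⟨a, ha⟩ := irreducible v (c k)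
  obtain ⟨b, hb⟩ := irreducible (c k) w
  filter_upwards [eventually_ge_atTop (2 * (a + b) + 1)] with n hn
  have h1 : K ^ n ≤ DD.pow n v w := by
    obtain ⟨m, hm⟩ : ∃ m, n = a + (m + b) := ⟨n - a - b, by omega⟩
    have h2 : K ^ (2 * m) ≤ DD.pow m (c k) (c k) := by
      have := loops k m
      rwa [hk1, ← pow_mul] at this
    have h3 : DD.pow m (c k) (c k) * DD.pow b (c k) w ≤ DD.pow (m + b) (c k) w :=
      mul_le_pow_add m b _ _ _
    have h4 : DD.pow a v (c k) * DD.pow (m + b) (c k) w ≤ DD.pow (a + (m + b)) v w :=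
      mul_le_pow_add a _ _ _ _
    rw [hm]
    calc K ^ (a + (m + b)) ≤ K ^ (2 * m) := Nat.pow_le_pow_right (by omega) (by omega)
      _ ≤ DD.pow m (c k) (c k) := h2
      _ ≤ DD.pow m (c k) (c k) * DD.pow b (c k) w := Nat.le_mul_of_pos_right _ hb
      _ ≤ DD.pow (m + b) (c k) w := h3
      _ ≤ DD.pow a v (c k) * DD.pow (m + b) (c k) w := Nat.le_mul_of_pos_left _ ha
      _ ≤ _ := h4
  have hn0 : (0 : ℝ) < n := by
    have : 0 < n := by omega
    exact_mod_cast this
  have h2 : (K : ℝ) ^ (n : ℝ) ≤ ((DD.pow n v w : ℕ) : ℝ) := by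
    rw [Real.rpow_natCast]
    exact_mod_cast h1
  calc C ≤ K := hKC.le
    _ = ((K : ℝ) ^ (n : ℝ)) ^ (1 / (n : ℝ)) := by
      rw [← Real.rpow_mul (by positivity), mul_one_div, div_self hn0.ne', Real.rpow_one]
    _ ≤ _ := Real.rpow_le_rpow (by positivity) h2 (by positivity)

/-! ### The coin measure -/

/-- a fair coin -/
noncomputable def coin : Measure Bool :=
  (2 : ℝ≥0∞)⁻¹ • Measure.dirac true + (2 : ℝ≥0∞)⁻¹ • Measure.dirac false

instance : IsProbabilityMeasure coin := by
  constructor
  simp [coin, ENNReal.inv_two_add_inv_two]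

theorem coin_singleton (b : Bool) : coin {b} = 2⁻¹ := by
  cases b <;> simp [coin]

/-- independent fair coins -/
noncomputable def β : Measure (ℕ → Bool) := Measure.infinitePi fun _ => coin

instance : IsProbabilityMeasure β := by unfold β; infer_instance

theorem β_box (s m : ℕ) (f : ℕ → Bool) :
    β {b | ∀ i, s ≤ i → i < s + m → b i = f i} = (2⁻¹) ^ m := by
  have h1 : {b : ℕ → Bool | ∀ i, s ≤ i → i < s + m → b i = f i} =
      Set.pi (Finset.Ico s (s + m)) fun i => {f i} := by
    ext b
    simp [Set.mem_pi]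
  rw [h1]
  unfold β
  rw [Measure.infinitePi_pi]
  · simp [coin_singleton]
  · intro i _
    exact measurableSet_singleton _

/-! ### Paths which end on the ray -/

/-- the path along the ray with the choices `b` of the edges -/
def ryp (b : ℕ → Bool) : DD.Path := ⟨fun i => ray i (b i), fun _ => rfl⟩

/-- an edge in front of a path -/
def cons (e : Ed) (z : DD.Path) (h : tgt e = src (z.edge 0)) : DD.Path :=
  ⟨fun i => Nat.casesOn i e z.edge, by
    intro i
    cases i with
    | zero => exact h
    | succ i => exact z.comp i⟩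

theorem tails_finite (s : ℕ) (z : DD.Path) : {x : DD.Path | ∀ i, x.edge (s + i) = z.edge i}.Finite := by
  classical
  induction s generalizing z with
  | zero =>
    refine (Set.finite_singleton z).subset ?_
    intro x hx
    simp only [zero_add] at hx
    exact Diagram.Path.ext (funext hx)
  | succ s ih =>
    have hfin := DD.in_finite (DD.src (z.edge 0))
    refine (hfin.biUnion (t := fun e => {x : DD.Path | ∃ h : tgt e = src (z.edge 0),
      ∀ i, x.edge (s + i) = (cons e z h).edge i}) ?_).subset ?_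
    · intro e he
      have h : tgt e = src (z.edge 0) := he
      refine (ih (cons e z h)).subset ?_
      rintro x ⟨_, hx⟩
      exact hx
    · intro x hx
      have h : tgt (x.edge s) = src (z.edge 0) := by
        have h1 := x.comp s
        have h2 := hx 0
        rw [add_zero] at h2
        rw [← h2]
        exact h1
      simp only [Set.mem_iUnion, exists_prop, Set.mem_ofPred_eq]
      refine ⟨x.edge s, h, h, ?_⟩
      intro i
      cases i with
      | zero => rfl
      | succ i =>
        have h2 := hx i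
        have e : s + (i + 1) = s + 1 + i := by ring
        rw [e]
        exact h2

/-- the paths which follow the ray, with the choice `false`, from level `s` on -/
def A (s : ℕ) : Set DD.Path := {x | ∀ i, x.edge (s + i) = ray i false}

theorem A_finite (s : ℕ) : (A s).Finite := tails_finite s (ryp fun _ => false)

theorem A_src {s : ℕ} {x : DD.Path} (hx : x ∈ A s) : DD.src (x.edge s) = r 0 := by
  have h := hx 0
  rw [add_zero] at h
  rw [h]
  rfl

theorem A_nonempty (s : ℕ) : (A s).Nonempty := by
  obtain ⟨x, hx⟩ := exists_shift (D := DD) s (ryp fun _ => false)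
  exact ⟨x, hx⟩

/-- the edges of `tw` -/
def twE (s : ℕ) (x : DD.Path) (b : ℕ → Bool) (i : ℕ) : Ed :=
  if i < s then x.edge i else ray (i - s) (b i)

theorem twE_lt {s : ℕ} {x : DD.Path} {b : ℕ → Bool} {i : ℕ} (h : i < s) :
    twE s x b i = x.edge i := if_pos h

theorem twE_ge {s : ℕ} {x : DD.Path} {b : ℕ → Bool} {i : ℕ} (h : s ≤ i) :
    twE s x b i = ray (i - s) (b i) := if_neg (by omega)

theorem twE_comp (s : ℕ) (x : DD.Path) (h : DD.src (x.edge s) = r 0) (b : ℕ → Bool) (i : ℕ) :
    tgt (twE s x b i) = src (twE s x b (i + 1)) := by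
  rcases lt_trichotomy (i + 1) s with h1 | h1 | h1
  · rw [twE_lt (by omega), twE_lt h1]; exact x.comp i
  · rw [twE_lt (by omega), twE_ge (by omega)]
    have h2 : tgt (x.edge i) = src (x.edge (i + 1)) := x.comp i
    rw [h2, h1]
    have h3 : src (x.edge s) = r 0 := h
    rw [h3, Nat.sub_self]
    rfl
  · rw [twE_ge (by omega), twE_ge (by omega)]
    have : i + 1 - s = (i - s) + 1 := by omega
    rw [this]
    rfl

open Classical in
/-- the path which follows `x` up to level `s` and then the ray with the choices `b` -/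
noncomputable def tw (s : ℕ) (x : DD.Path) (b : ℕ → Bool) : DD.Path :=
  if h : DD.src (x.edge s) = r 0 then ⟨twE s x b, twE_comp s x h b⟩ else x

theorem tw_lt {s : ℕ} {x : DD.Path} (hx : x ∈ A s) (b : ℕ → Bool) {i : ℕ} (hi : i < s) :
    (tw s x b).edge i = x.edge i := by
  unfold tw
  rw [dif_pos (A_src hx)]
  exact twE_lt hi

theorem tw_ge {s : ℕ} {x : DD.Path} (hx : x ∈ A s) (b : ℕ → Bool) {i : ℕ} (hi : s ≤ i) :
    (tw s x b).edge i = ray (i - s) (b i) := by
  unfold tw
  rw [dif_pos (A_src hx)]
  exact twE_ge hi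

theorem tw_src {s : ℕ} {x : DD.Path} (hx : x ∈ A s) (b : ℕ → Bool) {i : ℕ} (hi : i ≤ s) :
    DD.src ((tw s x b).edge i) = DD.src (x.edge i) := by
  rcases Nat.lt_or_ge i s with h | h
  · rw [tw_lt hx b h]
  · obtain rfl : i = s := le_antisymm hi h
    rw [tw_ge hx b le_rfl, A_src hx, Nat.sub_self]
    rfl

theorem measurable_tw {s : ℕ} {x : DD.Path} (hx : x ∈ A s) : Measurable (tw s x) := by
  apply measurable_generateFrom
  rintro _ ⟨n, y, rfl⟩
  have h1 : ∀ (i : ℕ) (Q : Ed → Prop), MeasurableSet {b : ℕ → Bool | Q ((tw s x b).edge i)} := by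
    intro i Q
    rcases Nat.lt_or_ge i s with h | h
    · simp only [tw_lt hx _ h]
      exact MeasurableSet.const _
    · simp only [tw_ge hx _ h]
      have h3 : MeasurableSet {c : Bool | Q (ray (i - s) c)} := MeasurableSet.of_discrete
      have h4 : Measurable fun b : ℕ → Bool => b i := measurable_pi_apply i
      exact h4 h3
  have h2 : tw s x ⁻¹' DD.cyl n y = (⋂ i ∈ Set.Iio n, {b | (tw s x b).edge i = y.edge i}) ∩
      {b | DD.src ((tw s x b).edge n) = DD.src (y.edge n)} := by
    ext b
    simp [Diagram.cyl]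
  rw [h2]
  refine MeasurableSet.inter ?_ (h1 n fun e => DD.src e = DD.src (y.edge n))
  exact MeasurableSet.biInter (Set.to_countable _) fun i _ => h1 i fun e => e = y.edge i

theorem ray_back {y : DD.Path} {s m : ℕ} (h : DD.src (y.edge (s + m)) = r m) :
    (∀ i, s ≤ i → i < s + m → ∃ b, y.edge i = ray (i - s) b) ∧ DD.src (y.edge s) = r 0 := by
  induction m with
  | zero => exact ⟨fun i h1 h2 => by omega, h⟩
  | succ m ih =>
    have h1 : tgt (y.edge (s + m)) = r (m + 1) := by
      have := y.comp (s + m)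
      rw [← h]
      exact this
    have h2 : ∃ b, y.edge (s + m) = ray m b := by
      generalize y.edge (s + m) = e at h1
      cases e with
      | ray k b =>
        simp [tgt] at h1
        subst h1
        exact ⟨b, rfl⟩
      | rc k => simp [tgt] at h1
      | loop k j => simp [tgt] at h1
      | cd k => simp [tgt] at h1
      | dd k => simp [tgt] at h1
      | dr => simp [tgt] at h1
    obtain ⟨b, hb⟩ := h2
    obtain ⟨h3, h4⟩ := ih (by rw [hb]; rfl)
    refine ⟨fun i hi1 hi2 => ?_, h4⟩
    rcases Nat.lt_or_ge i (s + m) with h5 | h5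
    · exact h3 i hi1 h5
    · obtain rfl : i = s + m := by omega
      exact ⟨b, by rw [hb]; congr 1; omega⟩

end Pool.Agent.Q186.Brat.One
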