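import Mathlib
import Pool.Agent.Q186.Brat.One

/-!
# The tail-invariant measure
-/

set_option autoImplicit false

open MeasureTheory Set Filter Topology
open scoped ENNReal

namespace Pool.Agent.Q186.Brat.One

open Vx Ed

/-- the measure of the paths which end on the ray from level `s` on -/
noncomputable def μs (s : ℕ) : Measure DD.Path := ∑ x ∈ (A_finite s).toFinset, β.map (tw s x)

theorem μs_apply (s : ℕ) {C : Set DD.Path} (hC : MeasurableSet C) :
    μs s C = ∑ x ∈ (A_finite s).toFinset, β {b | tw s x b ∈ C} := by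
  unfold μs
  rw [Measure.finsetSum_apply]
  apply Finset.sum_congr rfl
  intro x hx
  have hx' : x ∈ A s := by simpa using hx
  rw [Measure.map_apply (measurable_tw hx') hC]
  rfl

theorem μs_univ (s : ℕ) : μs s univ = (A_finite s).toFinset.card := by
  rw [μs_apply s MeasurableSet.univ]
  simp

theorem card_pos (s : ℕ) : 0 < (A_finite s).toFinset.card := by
  rw [Finset.card_pos]
  obtain ⟨x, hx⟩ := A_nonempty s
  exact ⟨x, by simpa using hx⟩

theorem mem_cyl_tw {s n : ℕ} (h : n ≤ s) {x : DD.Path} (hx : x ∈ A s) (b : ℕ → Bool) (y : DD.Path) :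
    tw s x b ∈ DD.cyl n y ↔ x ∈ DD.cyl n y := by
  unfold Diagram.cyl
  simp only [Set.mem_ofPred_eq]
  rw [tw_src hx b h]
  constructor
  · rintro ⟨h1, h2⟩
    exact ⟨fun i hi => by rw [← h1 i hi, tw_lt hx b (by omega)], h2⟩
  · rintro ⟨h1, h2⟩
    exact ⟨fun i hi => by rw [← h1 i hi, tw_lt hx b (by omega)], h2⟩

theorem μs_low {s n : ℕ} (h : n ≤ s) (y : DD.Path) :
    μs s (DD.cyl n y) = ((A s ∩ DD.cyl n y).ncard : ℝ≥0∞) := by
  classical
  rw [μs_apply s (measurableSet_cyl n y)]
  have h1 : ∀ x ∈ (A_finite s).toFinset, β {b | tw s x b ∈ DD.cyl n y} =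
      if x ∈ DD.cyl n y then 1 else 0 := by
    intro x hx
    have hx' : x ∈ A s := by simpa using hx
    simp only [mem_cyl_tw h hx']
    split_ifs with h2
    · simp [h2]
    · simp [h2]
  rw [Finset.sum_congr rfl h1, Finset.sum_ite, Finset.sum_const_zero, add_zero, Finset.sum_const,
    nsmul_eq_mul, mul_one]
  congr 1
  rw [← Set.ncard_coe_finset]
  congr 1
  ext x
  simp

theorem ncard_swap {s n : ℕ} (h : n ≤ s) {y y' : DD.Path}
    (hyy : DD.src (y.edge n) = DD.src (y'.edge n)) :
    (A s ∩ DD.cyl n y).ncard ≤ (A s ∩ DD.cyl n y').ncard := by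
  classical
  have hfin : (A s ∩ DD.cyl n y').Finite := (A_finite s).subset inter_subset_left
  -- replace the first `n` edges
  let f : DD.Path → DD.Path := fun x => if hx : DD.src (y'.edge n) = DD.src (x.edge n) then
    glue n y' x hx else x
  refine Set.ncard_le_ncard_of_injOn f ?_ ?_ hfin
  · rintro x ⟨hxA, hx1, hx2⟩
    have hx : DD.src (y'.edge n) = DD.src (x.edge n) := by rw [hx2, hyy]
    simp only [f, dif_pos hx]
    refine ⟨?_, ?_, ?_⟩
    · intro i
      rw [glue_ge hx (by omega)]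
      exact hxA i
    · intro i hi
      exact glue_lt hx hi
    · rw [glue_ge hx le_rfl, hx]
  · rintro x ⟨hxA, hx1, hx2⟩ z ⟨hzA, hz1, hz2⟩ hxz
    have hx : DD.src (y'.edge n) = DD.src (x.edge n) := by rw [hx2, hyy]
    have hz : DD.src (y'.edge n) = DD.src (z.edge n) := by rw [hz2, hyy]
    simp only [f, dif_pos hx, dif_pos hz] at hxz
    apply Diagram.Path.ext
    funext i
    rcases Nat.lt_or_ge i n with h1 | h1
    · rw [hx1 i h1, hz1 i h1]
    · have h2 := congrArg (fun p : DD.Path => p.edge i) hxz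
      simp only [glue_ge hx h1, glue_ge hz h1] at h2
      exact h2

theorem μs_high_ne {s m : ℕ} {y : DD.Path} (h : DD.src (y.edge (s + m)) ≠ r m) :
    μs s (DD.cyl (s + m) y) = 0 := by
  rw [μs_apply s (measurableSet_cyl _ y)]
  apply Finset.sum_eq_zero
  intro x hx
  have hx' : x ∈ A s := by simpa using hx
  have : {b | tw s x b ∈ DD.cyl (s + m) y} = ∅ := by
    rw [Set.eq_empty_iff_forall_notMem]
    rintro b ⟨-, hb⟩
    apply h
    rw [← hb, tw_ge hx' b (by omega)]
    have : s + m - s = m := by omega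
    rw [this]
    rfl
  rw [this, measure_empty]

theorem μs_high_eq {s m : ℕ} {y : DD.Path} (h : DD.src (y.edge (s + m)) = r m) :
    μs s (DD.cyl (s + m) y) = (2⁻¹) ^ m := by
  classical
  obtain ⟨h1, h2⟩ := ray_back h
  choose f hf using h1
  let c : ℕ → Bool := fun i => if hi : s ≤ i ∧ i < s + m then f i hi.1 hi.2 else false
  have hc : ∀ i, s ≤ i → i < s + m → y.edge i = ray (i - s) (c i) := by
    intro i hi1 hi2
    simp only [c, dif_pos (⟨hi1, hi2⟩ : s ≤ i ∧ i < s + m)]
    exact hf i hi1 hi2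
  -- the path which follows `y` up to level `s`
  obtain ⟨z, hz⟩ := exists_shift (D := DD) s (ryp fun _ => false)
  have hzs : DD.src (y.edge s) = DD.src (z.edge s) := by
    have := hz 0
    rw [add_zero] at this
    rw [h2, this]
    rfl
  set x0 : DD.Path := glue s y z hzs with hx0
  have hx0A : x0 ∈ A s := by
    intro i
    rw [hx0, glue_ge hzs (by omega)]
    exact hz i
  rw [μs_apply s (measurableSet_cyl _ y), Finset.sum_eq_single x0]
  · rw [← β_box s m c]
    congr 1
    ext b
    simp only [Set.mem_ofPred_eq, Diagram.cyl]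
    constructor
    · rintro ⟨h3, -⟩ i hi1 hi2
      have h4 := h3 i hi2
      rw [tw_ge hx0A b hi1, hc i hi1 hi2] at h4
      exact (Ed.ray.inj h4).2
    · intro h3
      refine ⟨fun i hi => ?_, ?_⟩
      · rcases Nat.lt_or_ge i s with h4 | h4
        · rw [tw_lt hx0A b h4, hx0, glue_lt hzs h4]
        · rw [tw_ge hx0A b h4, h3 i h4 hi, hc i h4 hi]
      · rw [tw_ge hx0A b (by omega), h]
        have : s + m - s = m := by omega
        rw [this]
        rfl
  · intro x hx hne
    have hx' : x ∈ A s := by simpa using hx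
    have : {b | tw s x b ∈ DD.cyl (s + m) y} = ∅ := by
      rw [Set.eq_empty_iff_forall_notMem]
      rintro b ⟨hb, -⟩
      apply hne
      apply Diagram.Path.ext
      funext i
      rcases Nat.lt_or_ge i s with h4 | h4
      · rw [hx0, glue_lt hzs h4, ← hb i (by omega), tw_lt hx' b h4]
      · obtain ⟨j, rfl⟩ : ∃ j, i = s + j := ⟨i - s, by omega⟩
        rw [hx' j, hx0A j]
    rw [this, measure_empty]
  · intro h3
    exact absurd (by simpa using hx0A) h3

theorem μs_tail (s n : ℕ) (y y' : DD.Path) (h : DD.src (y.edge n) = DD.src (y'.edge n)) :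
    μs s (DD.cyl n y) = μs s (DD.cyl n y') := by
  rcases Nat.le_total n s with h1 | h1
  · rw [μs_low h1, μs_low h1, le_antisymm (ncard_swap h1 h) (ncard_swap h1 h.symm)]
  · obtain ⟨m, rfl⟩ : ∃ m, n = s + m := ⟨n - s, by omega⟩
    by_cases h2 : DD.src (y.edge (s + m)) = r m
    · rw [μs_high_eq h2, μs_high_eq (by rw [← h, h2])]
    · rw [μs_high_ne h2, μs_high_ne (by rw [← h]; exact h2)]

/-- from every vertex there is a path which reaches the ray -/
theorem reach (v : Vx) : ∃ (l : ℕ) (z : DD.Path), DD.src (z.edge 0) = v ∧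
    ∀ i, z.edge (l + i) = ray i false := by
  have hcons : ∀ e : Ed, (∃ (l : ℕ) (z : DD.Path), DD.src (z.edge 0) = tgt e ∧
      ∀ i, z.edge (l + i) = ray i false) → ∃ (l : ℕ) (z : DD.Path), DD.src (z.edge 0) = src e ∧
      ∀ i, z.edge (l + i) = ray i false := by
    rintro e ⟨l, z, h1, h2⟩
    refine ⟨l + 1, cons e z h1.symm, rfl, fun i => ?_⟩
    have : l + 1 + i = (l + i) + 1 := by ring
    rw [this]
    exact h2 i
  have hr0 : ∃ (l : ℕ) (z : DD.Path), DD.src (z.edge 0) = r 0 ∧
      ∀ i, z.edge (l + i) = ray i false :=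
    ⟨0, ryp fun _ => false, rfl, fun i => by rw [zero_add]; rfl⟩
  have hd : ∀ k, ∃ (l : ℕ) (z : DD.Path), DD.src (z.edge 0) = d k ∧
      ∀ i, z.edge (l + i) = ray i false := by
    intro k
    induction k with
    | zero => exact hcons dr hr0
    | succ k ih => exact hcons (dd k) ih
  cases v with
  | r k => exact hcons (rc k) (hcons (cd k) (hd k))
  | c k => exact hcons (cd k) (hd k)
  | d k => exact hd k

theorem μs_pos (n : ℕ) (y : DD.Path) : ∃ s, 0 < μs s (DD.cyl n y) := by
  obtain ⟨l, z, h1, h2⟩ := reach (DD.src (y.edge n))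
  obtain ⟨z', hz'⟩ := exists_shift (D := DD) n z
  have h3 : DD.src (y.edge n) = DD.src (z'.edge n) := by
    have := hz' 0
    rw [add_zero] at this
    rw [this, h1]
  refine ⟨n + l, ?_⟩
  rw [μs_low (by omega)]
  have h4 : 0 < (A (n + l) ∩ DD.cyl n y).ncard := by
    rw [Set.ncard_pos ((A_finite _).subset inter_subset_left)]
    refine ⟨glue n y z' h3, ?_, fun i hi => glue_lt h3 hi, ?_⟩
    · intro i
      rw [glue_ge h3 (by omega), add_assoc, hz']
      exact h2 i
    · rw [glue_ge h3 le_rfl, h3]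
  exact_mod_cast h4

theorem singleton_eq (x : DD.Path) : {x} = ⋂ n, DD.cyl n x := by
  ext y
  simp only [mem_singleton_iff, mem_iInter]
  constructor
  · rintro rfl n
    exact mem_cyl_self n y
  · intro h
    apply Diagram.Path.ext
    funext i
    exact (h (i + 1)).1 i (Nat.lt_succ_self i)

theorem measurableSet_singleton' (x : DD.Path) : MeasurableSet {x} := by
  rw [singleton_eq]
  exact MeasurableSet.iInter fun n => measurableSet_cyl n x

theorem μs_atom (s : ℕ) (x : DD.Path) : μs s {x} = 0 := by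
  have h1 : ∀ m : ℕ, μs s {x} ≤ (2⁻¹) ^ m := by
    intro m
    have h2 : {x} ⊆ DD.cyl (s + m) x := by
      rintro y rfl
      exact mem_cyl_self _ y
    refine (measure_mono h2).trans ?_
    by_cases h3 : DD.src (x.edge (s + m)) = r m
    · rw [μs_high_eq h3]
    · rw [μs_high_ne h3]
      exact zero_le
  have h2 : Tendsto (fun m : ℕ => (2⁻¹ : ℝ≥0∞) ^ m) atTop (𝓝 0) :=
    ENNReal.tendsto_pow_atTop_nhds_zero_of_lt_one (by norm_num)
  exact le_antisymm (ge_of_tendsto' h2 h1) zero_le

/-- the weights -/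
noncomputable def wt (s : ℕ) : ℝ≥0∞ := (2⁻¹) ^ (s + 1) * ((A_finite s).toFinset.card : ℝ≥0∞)⁻¹

theorem wt_mul (s : ℕ) : wt s * ((A_finite s).toFinset.card : ℝ≥0∞) = (2⁻¹) ^ (s + 1) := by
  unfold wt
  rw [mul_assoc, ENNReal.inv_mul_cancel, mul_one]
  · exact_mod_cast (card_pos s).ne'
  · exact ENNReal.natCast_ne_top _

theorem wt_ne (s : ℕ) : wt s ≠ 0 := by
  intro h
  have := wt_mul s
  rw [h, zero_mul] at this
  exact absurd this.symm (pow_ne_zero _ (by simp))

/-- the tail-invariant probability measure -/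
noncomputable def μ : Measure DD.Path := Measure.sum fun s => wt s • μs s

theorem μ_apply {C : Set DD.Path} (hC : MeasurableSet C) : μ C = ∑' s, wt s * μs s C := by
  unfold μ
  rw [Measure.sum_apply _ hC]
  rfl

instance : IsProbabilityMeasure μ := by
  constructor
  rw [μ_apply MeasurableSet.univ]
  have : ∀ s, wt s * μs s univ = (2⁻¹ : ℝ≥0∞) ^ (s + 1) := fun s => by rw [μs_univ, wt_mul]
  simp only [this]
  rw [ENNReal.tsum_geometric_add_one, ENNReal.one_sub_inv_two, inv_inv]
  exact ENNReal.inv_mul_cancel (by norm_num) (by norm_num)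

theorem μ_tail : DD.TailInvariant μ := by
  refine ⟨IsProbabilityMeasure.ne_zero μ, ?_⟩
  intro n y y' h
  rw [μ_apply (measurableSet_cyl _ _), μ_apply (measurableSet_cyl _ _)]
  exact tsum_congr fun s => by rw [μs_tail s n y y' h]

theorem μ_pos (n : ℕ) (y : DD.Path) : 0 < μ (DD.cyl n y) := by
  obtain ⟨s, hs⟩ := μs_pos n y
  rw [μ_apply (measurableSet_cyl _ _)]
  exact lt_of_lt_of_le (ENNReal.mul_pos (wt_ne s) hs.ne') (ENNReal.le_tsum s)

theorem μ_atom (x : DD.Path) : μ {x} = 0 := by
  rw [μ_apply (measurableSet_singleton' x)]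
  simp [μs_atom]

end Pool.Agent.Q186.Brat.One
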