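import Mathlib
import Pool.Agent.Q186.Brat.Defs

/-!
# The tridiagonal diagram carries no finite tail-invariant measure
-/

set_option autoImplicit false

open MeasureTheory Set Filter Topology
open scoped ENNReal

namespace Pool.Agent.Q186.Brat

variable {V : Type} {D : Diagram V}

theorem exists_edge (n : ℕ) (e : D.E) : ∃ x : D.Path, x.edge n = e := by
  obtain ⟨z, hz⟩ := exists_from (D := D) (D.tgt e)
  let z0 : D.Path := ⟨fun i => Nat.casesOn i e z.edge, by
    intro i
    cases i with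
    | zero => exact hz.symm
    | succ i => exact z.comp i⟩
  obtain ⟨x, hx⟩ := exists_shift n z0
  have h := hx 0
  rw [add_zero] at h
  exact ⟨x, h⟩

/-- a path at `v` at level `n` -/
noncomputable def atp (D : Diagram V) (n : ℕ) (v : V) : D.Path := (exists_at (D := D) n v).choose

theorem atp_spec (n : ℕ) (v : V) : D.src ((atp D n v).edge n) = v :=
  (exists_at (D := D) n v).choose_spec

/-- the measure of the cylinder sets which end at `v` at level `n` -/
noncomputable def pm (μ : Measure D.Path) (n : ℕ) (v : V) : ℝ≥0∞ := μ (D.cyl n (atp D n v))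

theorem pm_eq {μ : Measure D.Path} (hμ : D.TailInvariant μ) (n : ℕ) (x : D.Path) :
    μ (D.cyl n x) = pm μ n (D.src (x.edge n)) := hμ.2 n x _ (atp_spec n _).symm

theorem pm_rec {μ : Measure D.Path} (hμ : D.TailInvariant μ) (n : ℕ) (w : V) :
    pm μ n w = ∑ e ∈ (D.out_finite w).toFinset, pm μ (n + 1) (D.tgt e) := by
  classical
  set x := atp D n w with hx
  have hxw : D.src (x.edge n) = w := atp_spec n w
  choose y hy using fun e : D.E => exists_edge (D := D) n e
  -- the path which follows `x` and then `e`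
  let g : D.E → D.Path := fun e => if h : D.src (x.edge n) = D.src ((y e).edge n) then
    glue n x (y e) h else x
  have hg : ∀ e ∈ (D.out_finite w).toFinset,
      (∀ i < n, (g e).edge i = x.edge i) ∧ (g e).edge n = e := by
    intro e he
    have he' : D.src e = w := by simpa using he
    have h : D.src (x.edge n) = D.src ((y e).edge n) := by rw [hy, he', hxw]
    simp only [g, dif_pos h]
    exact ⟨fun i hi => glue_lt h hi, by rw [glue_ge h le_rfl, hy]⟩
  have hcyl : D.cyl n x = ⋃ e ∈ (D.out_finite w).toFinset, D.cyl (n + 1) (g e) := by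
    ext z
    simp only [Set.mem_iUnion, exists_prop]
    constructor
    · rintro ⟨h1, h2⟩
      have he : z.edge n ∈ (D.out_finite w).toFinset := by
        simp only [Set.Finite.mem_toFinset, Set.mem_ofPred_eq]
        rw [h2, hxw]
      obtain ⟨h3, h4⟩ := hg _ he
      refine ⟨z.edge n, he, ?_, ?_⟩
      · intro i hi
        rcases Nat.lt_succ_iff_lt_or_eq.mp hi with h | h
        · rw [h1 i h, h3 i h]
        · subst h; rw [h4]
      · rw [← z.comp n, ← (g (z.edge n)).comp n, h4]
    · rintro ⟨e, he, h1, h2⟩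
      obtain ⟨h3, h4⟩ := hg _ he
      refine ⟨fun i hi => by rw [h1 i (by omega), h3 i hi], ?_⟩
      rw [h1 n (by omega), h4, hxw]
      simpa using he
  have h1 : pm μ n w = μ (D.cyl n x) := rfl
  rw [h1, hcyl, measure_biUnion_finset]
  · apply Finset.sum_congr rfl
    intro e he
    rw [pm_eq hμ, ← (g e).comp n, (hg e he).2]
  · intro e he f hf hef
    rw [Function.onFun, Set.disjoint_left]
    rintro z ⟨h1, -⟩ ⟨h2, -⟩
    apply hef
    rw [← (hg e he).2, ← (hg f hf).2, ← h1 n (by omega), ← h2 n (by omega)]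
  · intro e _
    exact measurableSet_cyl _ _

theorem pm_rec' {μ : Measure D.Path} (hμ : D.TailInvariant μ) (n : ℕ) (w : V) (T : Finset V)
    (hT : ∀ v, D.F v w ≠ 0 → v ∈ T) :
    pm μ n w = ∑ v ∈ T, (D.F v w : ℝ≥0∞) * pm μ (n + 1) v := by
  classical
  rw [pm_rec hμ]
  have hmaps : ∀ e ∈ (D.out_finite w).toFinset, D.tgt e ∈ T := by
    intro e he
    have he' : D.src e = w := by simpa using he
    exact hT _ (F_pos_iff.mpr ⟨e, he', rfl⟩).ne'
  rw [← Finset.sum_fiberwise_of_maps_to hmaps]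
  apply Finset.sum_congr rfl
  intro v _
  have h1 : ∑ e ∈ (D.out_finite w).toFinset with D.tgt e = v, pm μ (n + 1) (D.tgt e) =
      ∑ e ∈ (D.out_finite w).toFinset with D.tgt e = v, pm μ (n + 1) v := by
    apply Finset.sum_congr rfl
    intro e he
    rw [(Finset.mem_filter.mp he).2]
  rw [h1, Finset.sum_const, nsmul_eq_mul]
  congr 2
  unfold Diagram.F
  rw [← Set.ncard_coe_finset]
  congr 1
  ext e
  simp

/-- the sum over the vertices of level zero -/
theorem tsum_pm_zero {μ : Measure D.Path} [Countable V] : ∑' v, pm μ 0 v = μ univ := by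
  have h1 : (univ : Set D.Path) = ⋃ v, D.cyl 0 (atp D 0 v) := by
    ext x
    simp only [mem_univ, mem_iUnion, true_iff]
    exact ⟨D.src (x.edge 0), fun i hi => absurd hi (Nat.not_lt_zero i), (atp_spec 0 _).symm⟩
  rw [h1, measure_iUnion]
  · rfl
  · intro v w hvw
    rw [Function.onFun, Set.disjoint_left]
    rintro z ⟨-, h1⟩ ⟨-, h2⟩
    apply hvw
    rw [← atp_spec (D := D) 0 v, ← atp_spec (D := D) 0 w, ← h1, ← h2]
  · intro v
    exact measurableSet_cyl _ _

/-- The tridiagonal matrix with diagonal `2, 3, 4, …` and `1` above and below the diagonal; its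
index `v` stands for the index `i = v + 1` of the matrix with `F_{ii} = i + 1`. -/
def tri (v w : ℕ) : ℕ := if v = w then v + 2 else if v = w + 1 ∨ w = v + 1 then 1 else 0

section Tri

variable {D : Diagram ℕ} (hD : ∀ v w, D.F v w = tri v w) {μ : Measure D.Path}
  (hμ : D.TailInvariant μ)

include hD hμ

theorem tri_rec_succ (n w : ℕ) : pm μ n (w + 1) =
    pm μ (n + 1) w + (w + 3 : ℕ) * pm μ (n + 1) (w + 1) + pm μ (n + 1) (w + 2) := by
  rw [pm_rec' hμ n (w + 1) {w, w + 1, w + 2}]
  · rw [Finset.sum_insert (by simp), Finset.sum_insert (by simp), Finset.sum_singleton]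
    simp only [hD, tri]
    simp
    ring
  · intro v hv
    rw [hD] at hv
    unfold tri at hv
    split_ifs at hv with h1 h2
    · simp; omega
    · simp; omega
    · exact absurd rfl hv

theorem tri_rec_zero (n : ℕ) : pm μ n 0 =
    (2 : ℕ) * pm μ (n + 1) 0 + pm μ (n + 1) 1 := by
  rw [pm_rec' hμ n 0 {0, 1}]
  · rw [Finset.sum_insert (by simp), Finset.sum_singleton]
    simp only [hD, tri]
    simp
  · intro v hv
    rw [hD] at hv
    unfold tri at hv
    split_ifs at hv with h1 h2
    · subst h1; simp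
    · rcases h2 with h2 | h2
      · subst h2; simp
      · exfalso; clear hv h1; revert h2; trace_state; simp
    · exact absurd rfl hv

/-- the symmetric form -/
theorem form (m n : ℕ) : ∑' w, pm μ m w * pm μ (n + 1) w =
    ∑' w : ℕ, ((w + 2 : ℕ) : ℝ≥0∞) * (pm μ (m + 1) w * pm μ (n + 1) w) +
    (∑' w : ℕ, pm μ (m + 1) (w + 1) * pm μ (n + 1) w +
      ∑' w : ℕ, pm μ (m + 1) w * pm μ (n + 1) (w + 1)) := by
  rw [tsum_eq_zero_add' ENNReal.summable, tsum_eq_zero_add' (f := fun w : ℕ =>
    ((w + 2 : ℕ) : ℝ≥0∞) * (pm μ (m + 1) w * pm μ (n + 1) w)) ENNReal.summable,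
    tsum_eq_zero_add' (f := fun w : ℕ => pm μ (m + 1) (w + 1) * pm μ (n + 1) w) ENNReal.summable]
  have h1 : ∑' w, pm μ m (w + 1) * pm μ (n + 1) (w + 1) =
      ∑' w : ℕ, pm μ (m + 1) w * pm μ (n + 1) (w + 1) +
      ∑' w : ℕ, ((w + 1 + 2 : ℕ) : ℝ≥0∞) * (pm μ (m + 1) (w + 1) * pm μ (n + 1) (w + 1)) +
      ∑' w : ℕ, pm μ (m + 1) (w + 1 + 1) * pm μ (n + 1) (w + 1) := by
    rw [← ENNReal.tsum_add, ← ENNReal.tsum_add]
    apply tsum_congr
    intro w
    rw [tri_rec_succ hD hμ]
    ring
  rw [h1, tri_rec_zero hD hμ]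
  simp only [zero_add]
  ring

theorem shift (m n : ℕ) : ∑' w, pm μ m w * pm μ (n + 1) w = ∑' w, pm μ (m + 1) w * pm μ n w := by
  rw [form hD hμ m n]
  have h := form hD hμ n m
  have e : ∑' w, pm μ (m + 1) w * pm μ n w = ∑' w, pm μ n w * pm μ (m + 1) w :=
    tsum_congr fun w => mul_comm _ _
  rw [e, h]
  congr 1
  · exact tsum_congr fun w => by ring
  · rw [add_comm]
    congr 1
    · exact tsum_congr fun w => by ring
    · exact tsum_congr fun w => by ring

theorem diag_le (n w : ℕ) : ((w + 2 : ℕ) : ℝ≥0∞) * pm μ (n + 1) w ≤ pm μ n w := by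
  cases w with
  | zero => rw [tri_rec_zero hD hμ n]; exact le_self_add
  | succ w =>
    rw [tri_rec_succ hD hμ n]
    have e : w + 1 + 2 = w + 3 := by omega
    rw [e]
    exact le_trans le_add_self le_self_add

theorem succ_le (n w : ℕ) : pm μ (n + 1) w ≤ pm μ n w := by
  refine le_trans ?_ (diag_le hD hμ n w)
  calc pm μ (n + 1) w = 1 * pm μ (n + 1) w := by rw [one_mul]
    _ ≤ _ := by gcongr; exact_mod_cast (by omega : 1 ≤ w + 2)

theorem up_le (n w : ℕ) : pm μ (n + 1) (w + 1) ≤ pm μ n w := by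
  cases w with
  | zero => rw [tri_rec_zero hD hμ n]; exact le_add_self
  | succ w => rw [tri_rec_succ hD hμ n]; exact le_add_self

theorem down_le (n w : ℕ) : pm μ (n + 1) w ≤ pm μ n (w + 1) := by
  rw [tri_rec_succ hD hμ n, add_assoc]
  exact le_self_add

theorem anti (n k w : ℕ) : pm μ (n + k) w ≤ pm μ n w := by
  induction k with
  | zero => rfl
  | succ k ih => exact (succ_le hD hμ _ w).trans ih

theorem down_le' (n j w : ℕ) : pm μ (n + j) w ≤ pm μ n (w + j) := by
  induction j generalizing n with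
  | zero => rfl
  | succ j ih =>
    have e : n + (j + 1) = (n + 1) + j := by omega
    rw [e]
    refine (ih (n + 1)).trans ?_
    have e2 : w + (j + 1) = (w + j) + 1 := by omega
    rw [e2]
    exact down_le hD hμ n (w + j)

theorem up_le' (n j w : ℕ) : pm μ (n + j) (w + j) ≤ pm μ n w := by
  induction j generalizing n with
  | zero => rfl
  | succ j ih =>
    have e : n + (j + 1) = (n + 1) + j := by omega
    rw [e]
    have e2 : w + (j + 1) = (w + 1) + j := by omega
    rw [e2]
    have h1 : pm μ (n + 1 + j) (w + 1 + j) ≤ pm μ (n + 1) (w + 1) := by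
      have : ∀ w n, pm μ (n + j) (w + j) ≤ pm μ n w := by
        clear ih e e2
        induction j with
        | zero => intro w n; rfl
        | succ j ih2 =>
          intro w n
          have e3 : n + (j + 1) = (n + j) + 1 := by omega
          have e4 : w + (j + 1) = (w + j) + 1 := by omega
          rw [e3, e4]
          exact (up_le hD hμ _ _).trans (ih2 w n)
      exact this (w + 1) (n + 1)
    exact h1.trans (up_le hD hμ n w)

theorem diag_pow (n k w : ℕ) : ((w + 2 : ℕ) : ℝ≥0∞) ^ k * pm μ (n + k) w ≤ pm μ n w := by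
  induction k with
  | zero => simp
  | succ k ih =>
    calc ((w + 2 : ℕ) : ℝ≥0∞) ^ (k + 1) * pm μ (n + (k + 1)) w
        = ((w + 2 : ℕ) : ℝ≥0∞) ^ k * (((w + 2 : ℕ) : ℝ≥0∞) * pm μ (n + k + 1) w) := by
          rw [pow_succ, mul_assoc]; rfl
      _ ≤ ((w + 2 : ℕ) : ℝ≥0∞) ^ k * pm μ (n + k) w := by
          gcongr
          exact diag_le hD hμ _ _
      _ ≤ _ := ih

theorem decay (N k w : ℕ) : ((N + 2 : ℕ) : ℝ≥0∞) ^ k * pm μ k w ≤
    ((N + 2 : ℕ) : ℝ≥0∞) ^ (2 * N) * pm μ 0 w := by
  have hone : ∀ j : ℕ, (1 : ℝ≥0∞) ≤ ((N + 2 : ℕ) : ℝ≥0∞) ^ j := fun j =>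
    one_le_pow₀ (by exact_mod_cast (by omega : 1 ≤ N + 2))
  rcases le_or_gt N w with h | h
  · calc ((N + 2 : ℕ) : ℝ≥0∞) ^ k * pm μ k w ≤ ((w + 2 : ℕ) : ℝ≥0∞) ^ k * pm μ (0 + k) w := by
          rw [zero_add]
          gcongr
      _ ≤ pm μ 0 w := diag_pow hD hμ 0 k w
      _ = 1 * pm μ 0 w := by rw [one_mul]
      _ ≤ _ := by gcongr; exact hone _
  · obtain ⟨j, hj⟩ : ∃ j, N = w + j := ⟨N - w, by omega⟩
    rcases le_or_gt (2 * j) k with h2 | h2
    · obtain ⟨i, hi⟩ : ∃ i, k = j + i + j := ⟨k - 2 * j, by omega⟩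
      have h3 : pm μ k w ≤ pm μ (j + i) N := by
        rw [hi, hj]; exact down_le' hD hμ (j + i) j w
      have h4 : ((N + 2 : ℕ) : ℝ≥0∞) ^ i * pm μ (j + i) N ≤ pm μ j N := diag_pow hD hμ j i N
      have h5 : pm μ j N ≤ pm μ 0 w := by
        have := up_le' hD hμ 0 j w
        rwa [zero_add, ← hj] at this
      calc ((N + 2 : ℕ) : ℝ≥0∞) ^ k * pm μ k w
          ≤ ((N + 2 : ℕ) : ℝ≥0∞) ^ k * pm μ (j + i) N := by gcongr
        _ = ((N + 2 : ℕ) : ℝ≥0∞) ^ (2 * j) * (((N + 2 : ℕ) : ℝ≥0∞) ^ i * pm μ (j + i) N) := by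
            rw [← mul_assoc, ← pow_add]
            congr 2
            omega
        _ ≤ ((N + 2 : ℕ) : ℝ≥0∞) ^ (2 * j) * pm μ 0 w := by
            gcongr
            exact h4.trans h5
        _ ≤ _ := by
            gcongr
            · exact_mod_cast (by omega : 1 ≤ N + 2)
            · omega
    · calc ((N + 2 : ℕ) : ℝ≥0∞) ^ k * pm μ k w ≤ ((N + 2 : ℕ) : ℝ≥0∞) ^ k * pm μ 0 w := by
            gcongr
            have := anti hD hμ 0 k w
            rwa [zero_add] at this
        _ ≤ _ := by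
            gcongr
            · exact_mod_cast (by omega : 1 ≤ N + 2)
            · omega

end Tri

end Pool.Agent.Q186.Brat
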