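import Mathlib
import Pool.Agent.Q186.Brat.Two

/-!
# The tridiagonal diagram carries no finite tail-invariant measure: conclusion
-/

set_option autoImplicit false

open MeasureTheory Set Filter Topology
open scoped ENNReal

namespace Pool.Agent.Q186.Brat

section Tri

variable {D : Diagram ℕ} (hD : ∀ v w, D.F v w = tri v w) {μ : Measure D.Path}
  (hμ : D.TailInvariant μ)

include hD hμ

theorem no_finite (hfin : μ univ ≠ ⊤) : False := by
  have hle : ∀ n w, pm μ n w ≤ μ univ := fun n w => measure_mono (subset_univ _)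
  have hne : ∀ n w, pm μ n w ≠ ⊤ := fun n w => ne_top_of_le_ne_top hfin (hle n w)
  set P : ℕ → ℕ → ℝ := fun n w => (pm μ n w).toReal with hP
  have hP0 : ∀ n w, 0 ≤ P n w := fun n w => ENNReal.toReal_nonneg
  have hPle : ∀ n w, P n w ≤ P 0 w := by
    intro n w
    have := anti hD hμ 0 n w
    rw [zero_add] at this
    exact ENNReal.toReal_mono (hne 0 w) this
  have hsum0 : Summable (P 0) := by
    apply ENNReal.summable_toReal
    rw [tsum_pm_zero]
    exact hfin
  set M : ℝ := (μ univ).toReal with hM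
  have hPM : ∀ n w, P n w ≤ M := fun n w => ENNReal.toReal_mono hfin (hle n w)
  have hM0 : 0 ≤ M := ENNReal.toReal_nonneg
  have hsum : ∀ m n, Summable fun w => P m w * P n w := by
    intro m n
    refine Summable.of_nonneg_of_le (fun w => mul_nonneg (hP0 m w) (hP0 n w)) (fun w => ?_)
      (hsum0.mul_left M)
    exact mul_le_mul (hPM m w) (hPle n w) (hP0 n w) hM0
  -- the scalar products
  have hA : ∀ m n, ∑' w, P m w * P n w = (∑' w, pm μ m w * pm μ n w).toReal := by
    intro m n
    rw [ENNReal.tsum_toReal_eq (fun w => ENNReal.mul_ne_top (hne m w) (hne n w))]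
    apply tsum_congr
    intro w
    rw [ENNReal.toReal_mul]
  set T : ℕ → ℝ := fun k => ∑' w, P k w * P k w with hT
  have hTs : ∀ k, T (k + 1) = ∑' w, P k w * P (k + 2) w := by
    intro k
    simp only [hT]
    rw [hA, hA, shift hD hμ k (k + 1)]
  have hTnn : ∀ k, 0 ≤ T k := fun k => tsum_nonneg fun w => mul_self_nonneg _
  -- positivity
  have hTpos : ∀ k, 0 < T k := by
    have hstep : ∀ k, T (k + 1) = 0 → T k = 0 := by
      intro k hk
      have h1 : ∀ w, P (k + 1) w = 0 := by
        intro w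
        have := (hasSum_zero_iff_of_nonneg (fun w => mul_self_nonneg (P (k + 1) w))).mp
          (by rw [← hk]; exact (hsum (k + 1) (k + 1)).hasSum)
        have h2 := congrFun this w
        simpa using h2
      have h2 : ∀ w, pm μ (k + 1) w = 0 := by
        intro w
        have := (ENNReal.toReal_eq_zero_iff _).mp (h1 w)
        exact this.resolve_right (hne _ _)
      have h3 : ∀ w, pm μ k w = 0 := by
        intro w
        cases w with
        | zero => rw [tri_rec_zero hD hμ k, h2, h2]; simp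
        | succ w => rw [tri_rec_succ hD hμ k, h2, h2, h2]; simp
      simp only [hT, hP, h3]
      simp
    have h0 : T 0 ≠ 0 := by
      intro h0
      have h1 : ∀ w, P 0 w = 0 := by
        intro w
        have := (hasSum_zero_iff_of_nonneg (fun w => mul_self_nonneg (P 0 w))).mp
          (by rw [← h0]; exact (hsum 0 0).hasSum)
        have h2 := congrFun this w
        simpa using h2
      have h2 : ∀ w, pm μ 0 w = 0 := by
        intro w
        have := (ENNReal.toReal_eq_zero_iff _).mp (h1 w)
        exact this.resolve_right (hne _ _)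
      have h3 : μ univ = 0 := by
        rw [← tsum_pm_zero (μ := μ)]
        simp [h2]
      exact hμ.1 (Measure.measure_univ_eq_zero.mp h3)
    intro k
    induction k with
    | zero => exact lt_of_le_of_ne (hTnn 0) (Ne.symm h0)
    | succ k ih =>
      refine lt_of_le_of_ne (hTnn _) fun h => ?_
      rw [hstep k h.symm] at ih
      exact lt_irrefl _ ih
  -- logarithmic convexity
  have hconv : ∀ k, T (k + 1) ^ 2 ≤ T k * T (k + 2) := by
    intro k
    have h1 : ∀ s : ℝ, 2 * s * T (k + 1) ≤ s ^ 2 * T k + T (k + 2) := by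
      intro s
      rw [hTs k]
      simp only [hT]
      rw [← tsum_mul_left, ← tsum_mul_left, ← ((hsum k k).mul_left (s ^ 2)).tsum_add
        (hsum (k + 2) (k + 2))]
      apply Summable.tsum_le_tsum _ ((hsum k (k + 2)).mul_left _)
        (((hsum k k).mul_left (s ^ 2)).add (hsum (k + 2) (k + 2)))
      intro w
      nlinarith [sq_nonneg (s * P k w - P (k + 2) w)]
    have h2 := h1 (T (k + 1) / T k)
    have h3 := hTpos k
    have h4 : 2 * (T (k + 1) / T k) * T (k + 1) = 2 * (T (k + 1) ^ 2 / T k) := by ring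
    have h5 : (T (k + 1) / T k) ^ 2 * T k = T (k + 1) ^ 2 / T k := by field_simp
    rw [h4, h5] at h2
    have h6 : T (k + 1) ^ 2 / T k ≤ T (k + 2) := by linarith
    rw [div_le_iff₀ h3] at h6
    linarith
  set q : ℝ := T 1 / T 0 with hq
  have hq0 : 0 < q := div_pos (hTpos 1) (hTpos 0)
  have hratio : ∀ k, q * T k ≤ T (k + 1) := by
    intro k
    induction k with
    | zero => rw [hq, div_mul_cancel₀ _ (hTpos 0).ne']
    | succ k ih =>
      have h1 := hconv k
      have h2 := hTpos k
      have h3 := hTpos (k + 1)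
      -- `q T_{k+1} T_k ≤ T_{k+1}^2 ≤ T_k T_{k+2}`
      have h4 : q * T (k + 1) * T k ≤ T (k + 2) * T k := by nlinarith
      exact le_of_mul_le_mul_right h4 h2
  have hlow : ∀ k, q ^ k * T 0 ≤ T k := by
    intro k
    induction k with
    | zero => simp
    | succ k ih =>
      calc q ^ (k + 1) * T 0 = q * (q ^ k * T 0) := by ring
        _ ≤ q * T k := by gcongr
        _ ≤ _ := hratio k
  -- decay
  obtain ⟨N, hN⟩ := exists_nat_gt (2 / q)
  set B : ℝ := (N : ℝ) + 2 with hB
  have hB1 : 2 ≤ B := by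
    have : (0 : ℝ) ≤ N := Nat.cast_nonneg _
    rw [hB]; linarith
  have hdec : ∀ k w, B ^ k * P k w ≤ B ^ (2 * N) * P 0 w := by
    intro k w
    have h1 := decay hD hμ N k w
    have h2 := ENNReal.toReal_mono (ENNReal.mul_ne_top (by simp) (hne 0 w)) h1
    rw [ENNReal.toReal_mul, ENNReal.toReal_mul, ENNReal.toReal_pow, ENNReal.toReal_pow,
      ENNReal.toReal_natCast] at h2
    push_cast at h2
    exact h2
  have hup : ∀ k, (B ^ 2) ^ k * T k ≤ (B ^ (2 * N)) ^ 2 * T 0 := by
    intro k
    simp only [hT]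
    rw [← tsum_mul_left, ← tsum_mul_left]
    apply Summable.tsum_le_tsum _ ((hsum k k).mul_left _) ((hsum 0 0).mul_left _)
    intro w
    have h1 := hdec k w
    have h2 : 0 ≤ B ^ k * P k w := mul_nonneg (by positivity) (hP0 k w)
    calc (B ^ 2) ^ k * (P k w * P k w) = (B ^ k * P k w) ^ 2 := by ring
      _ ≤ (B ^ (2 * N) * P 0 w) ^ 2 := by gcongr
      _ = _ := by ring
  have hqB : 2 ≤ q * B ^ 2 := by
    have h1 : 2 < q * N := by
      rw [div_lt_iff₀ hq0] at hN
      linarith
    have h2 : (N : ℝ) ≤ B ^ 2 := by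
      have h3 : (0 : ℝ) ≤ N := Nat.cast_nonneg _
      rw [hB]; nlinarith
    nlinarith
  have hfinal : ∀ k : ℕ, (2 : ℝ) ^ k ≤ (B ^ (2 * N)) ^ 2 := by
    intro k
    have h1 : (q * B ^ 2) ^ k * T 0 ≤ (B ^ (2 * N)) ^ 2 * T 0 := by
      calc (q * B ^ 2) ^ k * T 0 = (B ^ 2) ^ k * (q ^ k * T 0) := by rw [mul_pow]; ring
        _ ≤ (B ^ 2) ^ k * T k := by gcongr; exact hlow k
        _ ≤ _ := hup k
    have h2 := le_of_mul_le_mul_right h1 (hTpos 0)
    exact le_trans (pow_le_pow_left₀ (by norm_num) hqB k) h2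
  obtain ⟨k, hk⟩ := pow_unbounded_of_one_lt ((B ^ (2 * N)) ^ 2) (by norm_num : (1 : ℝ) < 2)
  exact absurd (hfinal k) (not_le.mpr hk)

end Tri

end Pool.Agent.Q186.Brat
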